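import Mathlib
import Pool.Agent.KM25

namespace Pool.Agent.Results.MP_1cd45c_al.TriangleIdentity

open LaurentPolynomial

/-- `A n r` is the Laurent polynomial `A_n^r(q)`, with `q = T 1`, given by the recursion
`A_0^0 = 1`, `A_0^r = 0` for `r > 0`, `A_{n+1}^{r+1} = q^{r+1} A_n^{r+1} + (q^{n-r} - q^r) A_n^r`
(for `r = -1` the recursion reads `A_{n+1}^0 = A_n^0`, since `A_n^{-1} = 0`). -/
noncomputable def A : ℕ → ℕ → LaurentPolynomial ℤ
  | 0, 0 => 1
  | 0, _ + 1 => 0
  | n + 1, 0 => A n 0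
  | n + 1, r + 1 => T ((r : ℤ) + 1) * A n (r + 1) + (T ((n : ℤ) - (r : ℤ)) - T (r : ℤ)) * A n r

/-- `b k l` is the Laurent polynomial `b_{k,l}(q)`, with `q = T 1`, given by
`b_{0,0} = 1`, `b_{0,l} = q^l b_{l-1,0}` for `l ≥ 1`, and
`b_{k,l} = q^{-1} b_{k-1,l+1} + (q^{l+1} - q^l) b_{l,k-1}` for `k > 0`. -/
noncomputable def b : ℕ → ℕ → LaurentPolynomial ℤ
  | 0, 0 => 1
  | 0, l + 1 => T ((l : ℤ) + 1) * b l 0
  | k + 1, l => T (-1) * b k (l + 1) + (T ((l : ℤ) + 1) - T (l : ℤ)) * b l k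
termination_by k l => (k + l, k)
decreasing_by
  · exact Prod.Lex.left _ _ (by omega)
  · rw [show k + (l + 1) = k + 1 + l by omega]
    exact Prod.Lex.right _ (by omega)
  · exact Prod.Lex.left _ _ (by omega)

/-- evaluation of Laurent polynomials at a nonzero rational number -/
noncomputable def ev (q : ℚ) (hq : q ≠ 0) : LaurentPolynomial ℤ →+* ℚ :=
  LaurentPolynomial.eval₂ (Int.castRingHom ℚ) (Units.mk0 q hq)

lemma ev_T (q : ℚ) (hq : q ≠ 0) (n : ℤ) : ev q hq (T n) = q ^ n := by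
  unfold ev
  rw [LaurentPolynomial.eval₂_T]
  simp

lemma ev_A (q : ℚ) (hq : q ≠ 0) : ∀ n r : ℕ, ev q hq (A n r) = KM25.Ae q n r := by
  intro n
  induction n with
  | zero =>
    intro r
    cases r with
    | zero => rw [A, KM25.Ae, map_one]
    | succ r => rw [A, KM25.Ae, map_zero]
  | succ n ih =>
    intro r
    cases r with
    | zero => rw [A, KM25.Ae, ih]
    | succ r =>
      rw [A, KM25.Ae, map_add, map_mul, map_mul, map_sub, ev_T, ev_T, ev_T, ih, ih]

lemma ev_b (q : ℚ) (hq : q ≠ 0) (k l : ℕ) : ev q hq (b k l) = q ^ l * KM25.be q (k + l) k := by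
  induction k, l using b.induct with
  | case1 => rw [b, KM25.be, map_one]; simp
  | case2 l ih =>
    rw [b, map_mul, ev_T, ih]
    have : 0 + (l + 1) = l + 1 := by omega
    rw [this, KM25.be]
    have h1 : q ^ ((l : ℤ) + 1) = q ^ (l + 1) := by rw [← zpow_natCast]; push_cast; rfl
    rw [h1, pow_zero, one_mul]
    rfl
  | case3 k l ih1 ih2 =>
    rw [b, map_add, map_mul, map_mul, map_sub, ev_T, ev_T, ev_T, ih1, ih2]
    have h1 : q ^ ((l : ℤ) + 1) = q ^ (l + 1) := by rw [← zpow_natCast]; push_cast; rfl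
    have h2 : k + 1 + l = (k + l) + 1 := by omega
    have h3 : k + (l + 1) = (k + l) + 1 := by omega
    have h4 : l + k = k + l := by omega
    rw [h1, h2, h3, h4, KM25.be, zpow_natCast, zpow_neg_one]
    have h5 : k + l - k = l := by omega
    rw [h5]
    field_simp
    ring

lemma eq_zero_of_ev (f : LaurentPolynomial ℤ)
    (h : ∀ (p : ℕ) (hp : p.Prime), ev (p : ℚ) (by exact_mod_cast hp.ne_zero) f = 0) : f = 0 := by
  obtain ⟨m, g, hg⟩ := LaurentPolynomial.exists_T_pow f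
  have hroot : ∀ p : ℕ, p.Prime → (g.map (Int.castRingHom ℚ)).IsRoot (p : ℚ) := by
    intro p hp
    have h1 : ev (p : ℚ) (by exact_mod_cast hp.ne_zero) (Polynomial.toLaurent g) = 0 := by
      rw [hg, map_mul, h p hp, zero_mul]
    unfold ev at h1
    rw [LaurentPolynomial.eval₂_toLaurent] at h1
    rw [Polynomial.IsRoot.def, Polynomial.eval_map]
    exact h1
  have hg0 : g.map (Int.castRingHom ℚ) = 0 := by
    apply Polynomial.eq_zero_of_infinite_isRoot
    have hinf : (((fun n : ℕ => (n : ℚ)) '' {p : ℕ | p.Prime})).Infinite :=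
      Set.Infinite.image (Nat.cast_injective.injOn) Nat.infinite_setOfPred_prime
    apply hinf.mono
    rintro x ⟨p, hp, rfl⟩
    exact hroot p hp
  have hg1 : g = 0 := by
    apply Polynomial.map_injective (Int.castRingHom ℚ) (RingHom.injective_int _)
    rw [hg0, Polynomial.map_zero]
  rw [hg1, map_zero] at hg
  have : f * T m * T (-(m : ℤ)) = 0 := by rw [← hg, zero_mul]
  rw [mul_assoc, ← T_add] at this
  simpa using this

theorem count (F : Type) [Field F] [Fintype F] (n : ℕ) (hn : 1 ≤ n) (hq : (Fintype.card F : ℚ) ≠ 0) :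
    (Nat.card {X : Matrix (Fin n) (Fin n) F // (∀ i j, j ≤ i → X i j = 0) ∧ X * X = 0} : ℚ) =
      ev (Fintype.card F : ℚ) hq (b (n - 1) 0) := by
  obtain ⟨m, rfl⟩ : ∃ m, n = m + 1 := ⟨n - 1, by omega⟩
  rw [ev_b]
  have := KM25.card_good F m
  simp only [Nat.add_sub_cancel, pow_zero, one_mul, add_zero]
  exact this

/-- The Kirillov-Melnikov identity `A_n = B_n`: the Laurent polynomials `A_n = ∑_r A_n^r` and
`B_n = b_{n-1,0}` agree for every `n ≥ 1`; and the value of `B_n` at the order of a finite field `F`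
is the number of strictly upper triangular `n × n` matrices over `F` with square zero. -/
theorem result :
    (∀ n : ℕ, 1 ≤ n → ∑ r ∈ Finset.range (n + 1), A n r = b (n - 1) 0) ∧
    (∀ (F : Type) [Field F] [Fintype F] (n : ℕ), 1 ≤ n → ∀ hq : (Fintype.card F : ℚ) ≠ 0,
      (Nat.card {X : Matrix (Fin n) (Fin n) F // (∀ i j, j ≤ i → X i j = 0) ∧ X * X = 0} : ℚ) =
        LaurentPolynomial.eval₂ (Int.castRingHom ℚ) (Units.mk0 (Fintype.card F : ℚ) hq)
          (b (n - 1) 0)) := by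
  refine ⟨?_, fun F _ _ n hn hq => count F n hn hq⟩
  intro n hn
  rw [← sub_eq_zero]
  apply eq_zero_of_ev
  intro p hp
  have : Fact p.Prime := ⟨hp⟩
  have hc : Fintype.card (ZMod p) = p := ZMod.card p
  have hq : (Fintype.card (ZMod p) : ℚ) ≠ 0 := by rw [hc]; exact_mod_cast hp.ne_zero
  have h1 := count (ZMod p) n hn hq
  have h2 : (∑ r ∈ Finset.range (n + 1), (KM25.R (ZMod p) (Fin n) r : ℚ)) =
      (Nat.card {Y : Matrix (Fin n) (Fin n) (ZMod p) // KM25.Good Y} : ℚ) := by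
    rw [← KM25.sum_R]; push_cast; rfl
  have h3 : ∀ r, (KM25.R (ZMod p) (Fin n) r : ℚ) = ev (Fintype.card (ZMod p) : ℚ) hq (A n r) := by
    intro r
    rw [ev_A, KM25.R_eq (ZMod p) n (Fin n) (by simp) r]
  simp_rw [h3] at h2
  rw [← map_sum] at h2
  have h4 : (Nat.card {Y : Matrix (Fin n) (Fin n) (ZMod p) // KM25.Good Y} : ℚ) =
      ev (Fintype.card (ZMod p) : ℚ) hq (b (n - 1) 0) := h1
  rw [h4] at h2
  simp only [hc] at h2
  rw [map_sub, h2, sub_self]

end Pool.Agent.Results.MP_1cd45c_al.TriangleIdentity
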